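import Pool.Agent.H83.Pl3

set_option autoImplicit false

namespace Pool.Agent.Results.MP_f5469c_gt.ClosedNull

open Cardinal MeasureTheory

/-- Every non-expansive bijection of `X` is an isometry. -/
def Plastic (X : Type) [MetricSpace X] : Prop :=
  ∀ f : X → X, Function.Bijective f → (∀ x y, dist (f x) (f y) ≤ dist x y) →
    ∀ x y, dist (f x) (f y) = dist x y

/-- `A` is covered by countably many closed Lebesgue-null sets. -/
def InE (A : Set ℝ) : Prop :=
  ∃ C : ℕ → Set ℝ, (∀ n, IsClosed (C n) ∧ volume (C n) = 0) ∧ A ⊆ ⋃ n, C n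

theorem result (G : AddSubgroup ℝ) (hG : Dense (G : Set ℝ)) (hE : InE G) : ¬ Plastic G := by
  obtain ⟨C, h1, h2⟩ := hE
  intro hP
  obtain ⟨f, a, b, c⟩ := Pool.Agent.H83.Pl3.main G hG C h1 h2
  exact c (hP f a b)

end Pool.Agent.Results.MP_f5469c_gt.ClosedNull
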